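import Mathlib
import Pool.Agent.Y137.MV.Defs

/-!
# Definitions: absolutely irreducible odd functions, slope functions, decomposition of classes
-/

namespace Pool.Agent.Y137.SL

open NumberField Module Pool.Agent.Y137.MV

/-- The odd functions on the complex embeddings of `F` form an absolutely irreducible representation
of the group of automorphisms of the field of complex numbers: it is irreducible, and all
equivariant endomorphisms are scalars. -/
def OddAbsolutelyIrreducible (F : Type*) [Field F] : Prop :=
  OddIrreducible F ∧ ∀ T : ((F →+* ℂ) → ℚ) →ₗ[ℚ] ((F →+* ℂ) → ℚ),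
    (∀ (τ : ℂ ≃+* ℂ) n φ,
      T (fun ψ => n ((τ : ℂ →+* ℂ).comp ψ)) φ = T n ((τ : ℂ →+* ℂ).comp φ)) →
    (∀ n, IsOdd (T n)) → ∃ c : ℚ, ∀ n, IsOdd n → T n = c • n

/-- The slope function of a Weil number for `p ^ a`, on the embeddings in the algebraic closure of
the field of `p`-adic numbers, normalised so that it is odd. -/
noncomputable def slope (p a : ℕ) [Fact p.Prime] {F : Type*} [Field F] (x : F) :
    (F →+* PadicAlgCl p) → ℝ := fun τ => Real.log ‖τ x‖ + a * Real.log p / 2

section classes

variable {k : Type*} [Field k] {V : Type*} [AddCommGroup V] [Module k V]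
  {M : Type*} [AddCommGroup M] [Module k M] {Γ : Type*} [Group Γ]

/-- The representation `ρ` is semisimple on subgroups of finite index, it preserves a symplectic
form with multiplier `χ`, `χ` takes the value `p ^ a` at `γ` and the characteristic polynomial of
`γ` is the product of the minimal polynomials of the `π i`. -/
def IsPolarised [CharZero k] [FiniteDimensional k V] (ρ : Representation k Γ V) (χ : Γ →* k) (γ : Γ)
    (p a : ℕ) {ι : Type*} [Fintype ι] {F : ι → Type*} [∀ i, Field (F i)] [∀ i, NumberField (F i)]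
    (π : ∀ i, F i) : Prop :=
  FiniteIndexSemisimple ρ ∧ (∃ ω : V →ₗ[k] V →ₗ[k] k, (∀ v, ω v v = 0) ∧
    (∀ u, (∀ v, ω v u = 0) → u = 0) ∧ ∀ s u v, ω (ρ s u) (ρ s v) = χ s * ω u v) ∧
    χ γ = (p : k) ^ a ∧ (ρ γ).charpoly = ∏ i, (minpoly ℚ (π i)).map (algebraMap ℚ k)

/-- Equivariant alternating maps from `V ^ n` to `M` vanish if the number of variables is odd, and
they are linear combinations of products of Tate forms and of Tate vectors if it is even. -/
def ClassesSplit (ρ : Representation k Γ V) (χ : Γ →* k) (τ : Representation k Γ M) : Prop :=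
  (∀ (n m : ℕ) (g : (Fin n → V) [⋀^Fin m × Fin 2]→ₗ[k] M), IsEquivariant ρ τ g →
    g ∈ Submodule.span k {h | IsProduct ρ χ τ h}) ∧
  ∀ (n m : ℕ) (g : (Fin n → V) [⋀^Fin (2 * m + 1)]→ₗ[k] M), IsEquivariant ρ τ g → g = 0

end classes

end Pool.Agent.Y137.SL
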