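import Mathlib
import Pool.Agent.Y137.MV.Odd

/-!
# Stable spaces of relations for several copies of absolutely irreducible representations
-/

set_option linter.unusedSectionVars false

namespace Pool.Agent.Y137.SL

open Pool.Agent.Y137.MV

noncomputable section

/-- All equivariant endomorphisms of the space of odd functions are scalars. -/
def ScalarOdd {E : Type*} (G : Type*) [Group G] [MulAction G E] (inv : E → E) : Prop :=
  ∀ T : (E → ℚ) →ₗ[ℚ] (E → ℚ), (∀ (g : G) n x, T (fun y => n (g • y)) x = T n (g • x)) →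
    (∀ n, OddFun inv (T n)) → ∃ c : ℚ, ∀ n, OddFun inv n → T n = c • n

/-- A nonzero stable space of odd functions on several copies of sets with absolutely irreducible and
pairwise unrelated spaces of odd functions contains the graph of scalars in one class. -/
theorem core_slopes {C : Type*} [Fintype C] [DecidableEq C] {J : C → Type*} [∀ c, Fintype (J c)]
    {E : C → Type*} {G : Type*} [Group G]
    [∀ c, MulAction G (E c)] (inv : ∀ c, E c → E c) (hinv : ∀ c x, inv c (inv c x) = x)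
    (hG : ∀ (g : G) c (x : E c), g • inv c x = inv c (g • x))
    (hirr : ∀ c, IrrOdd G (inv c)) (hsc : ∀ c, ScalarOdd G (inv c))
    (hun : ∀ c c', c ≠ c' → UnrelOdd G (inv c) (inv c'))
    (S : Submodule ℚ (∀ c, J c → E c → ℚ)) (hodd : ∀ d ∈ S, ∀ c j, OddFun (inv c) (d c j))
    (hst : ∀ g : G, ∀ d ∈ S, (fun c j x => d c j (g • x)) ∈ S) (hS : S ≠ ⊥) :
    ∃ (c : C) (l : J c → ℚ), l ≠ 0 ∧ ∀ n : E c → ℚ, OddFun (inv c) n →
      Pi.single c (fun j x => l j * n x) ∈ S := by
  classical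
  obtain ⟨d0, hd0, hd00⟩ := Submodule.exists_mem_ne_zero_of_ne_bot hS
  let supp : (∀ c, J c → E c → ℚ) → Finset (Σ c, J c) := fun d =>
    Finset.univ.filter (fun i => d i.1 i.2 ≠ 0)
  let P : ℕ → Prop := fun N => ∃ d ∈ S, d ≠ 0 ∧ (supp d).card = N
  have hP : ∃ N, P N := ⟨_, d0, hd0, hd00, rfl⟩
  obtain ⟨e, heS, he, hcard⟩ := Nat.find_spec hP
  set I := supp e with hI
  have hmin : ∀ d ∈ S, d ≠ 0 → I.card ≤ (supp d).card := by
    intro d hd hd0
    rw [hcard]
    exact Nat.find_min' hP ⟨d, hd, hd0, rfl⟩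
  have hmem : ∀ d (i : Σ c, J c), i ∈ supp d ↔ d i.1 i.2 ≠ 0 := by
    intro d i
    simp [supp]
  have hIne : I.Nonempty := by
    by_contra h
    rw [Finset.not_nonempty_iff_eq_empty] at h
    apply he
    funext c j
    by_contra hi
    have h1 : (⟨c, j⟩ : Σ c, J c) ∈ I := (hmem e ⟨c, j⟩).2 hi
    rw [h] at h1
    exact absurd h1 (Finset.notMem_empty _)
  obtain ⟨⟨c0, j0⟩, hi0⟩ := hIne
  let SI : Submodule ℚ (∀ c, J c → E c → ℚ) :=
    { carrier := {d | d ∈ S ∧ ∀ i : Σ c, J c, i ∉ I → d i.1 i.2 = 0}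
      zero_mem' := ⟨S.zero_mem, fun _ _ => rfl⟩
      add_mem' := fun ha hb => ⟨S.add_mem ha.1 hb.1, fun i hi => by
        rw [Pi.add_apply, Pi.add_apply, ha.2 i hi, hb.2 i hi, add_zero]⟩
      smul_mem' := fun r a ha => ⟨S.smul_mem r ha.1, fun i hi => by
        rw [Pi.smul_apply, Pi.smul_apply, ha.2 i hi, smul_zero]⟩ }
  have hSI0 : ∀ d ∈ SI, d c0 j0 = 0 → d = 0 := by
    intro d hd hd0
    by_contra h
    have h1 := hmin d hd.1 h
    have h2 : supp d ⊆ I.erase ⟨c0, j0⟩ := by
      intro i hi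
      rw [hmem] at hi
      rw [Finset.mem_erase]
      refine ⟨?_, ?_⟩
      · rintro rfl
        exact hi hd0
      · by_contra h3
        exact hi (hd.2 i h3)
    have h3 := Finset.card_le_card h2
    rw [Finset.card_erase_of_mem hi0] at h3
    have h4 : 0 < I.card := Finset.card_pos.2 ⟨_, hi0⟩
    omega
  have hSIst : ∀ g : G, ∀ d ∈ SI, (fun c j x => d c j (g • x)) ∈ SI := by
    intro g d hd
    refine ⟨hst g d hd.1, fun i hi => ?_⟩
    funext x
    have := hd.2 i hi
    change d i.1 i.2 (g • x) = 0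
    rw [this]
    rfl
  let pr : ∀ c, J c → ((∀ c, J c → E c → ℚ) →ₗ[ℚ] (E c → ℚ)) := fun c j =>
    { toFun := fun d => d c j
      map_add' := fun _ _ => rfl
      map_smul' := fun _ _ => rfl }
  let W : Submodule ℚ (E c0 → ℚ) := SI.map (pr c0 j0)
  have hWodd : ∀ n ∈ W, OddFun (inv c0) n := by
    rintro _ ⟨d, hd, rfl⟩
    exact hodd d hd.1 c0 j0
  have hWst : ∀ g : G, ∀ n ∈ W, (fun x => n (g • x)) ∈ W := by
    rintro g _ ⟨d, hd, rfl⟩
    exact ⟨_, hSIst g d hd, rfl⟩
  have heSI : e ∈ SI := ⟨heS, fun i hi => by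
    by_contra h
    exact hi ((hmem e i).2 h)⟩
  have hWall : ∀ n, OddFun (inv c0) n → n ∈ W := by
    rcases hirr c0 W hWodd hWst with h | h
    · exfalso
      have h1 : e c0 j0 ∈ W := ⟨e, heSI, rfl⟩
      rw [h, Submodule.mem_bot] at h1
      exact (hmem e ⟨c0, j0⟩).1 hi0 h1
    · exact h
  let Od : Submodule ℚ (E c0 → ℚ) :=
    { carrier := {n | OddFun (inv c0) n}
      zero_mem' := fun x => by simp
      add_mem' := fun ha hb x => by
        rw [Pi.add_apply, Pi.add_apply, ha x, hb x]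
        ring
      smul_mem' := fun r a ha x => by
        rw [Pi.smul_apply, Pi.smul_apply, ha x, smul_neg] }
  let Q : SI →ₗ[ℚ] Od :=
    { toFun := fun d => ⟨d.1 c0 j0, hodd d.1 d.2.1 c0 j0⟩
      map_add' := fun _ _ => rfl
      map_smul' := fun _ _ => rfl }
  have hQ : Function.Bijective Q := by
    constructor
    · rw [injective_iff_map_eq_zero]
      intro d hd
      have h1 : d.1 c0 j0 = 0 := congrArg Subtype.val hd
      exact Subtype.ext (hSI0 d.1 d.2 h1)
    · rintro ⟨n, hn⟩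
      obtain ⟨d, hd, hdn⟩ := hWall n hn
      exact ⟨⟨d, hd⟩, Subtype.ext hdn⟩
  let Qe := LinearEquiv.ofBijective Q hQ
  let A : (E c0 → ℚ) →ₗ[ℚ] Od :=
    { toFun := fun m => ⟨fun x => m x - m (inv c0 x), fun x => by
        change m (inv c0 x) - m (inv c0 (inv c0 x)) = -(m x - m (inv c0 x))
        rw [hinv]
        ring⟩
      map_add' := fun a b => Subtype.ext (funext fun x => by
        change (a + b) x - (a + b) (inv c0 x) = (a x - a (inv c0 x)) + (b x - b (inv c0 x))
        rw [Pi.add_apply, Pi.add_apply]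
        ring)
      map_smul' := fun r a => Subtype.ext (funext fun x => by
        change (r • a) x - (r • a) (inv c0 x) = r • (a x - a (inv c0 x))
        rw [Pi.smul_apply, Pi.smul_apply, smul_sub]) }
  let T : ∀ c, J c → (E c0 → ℚ) →ₗ[ℚ] (E c → ℚ) := fun c j =>
    (pr c j).comp (SI.subtype.comp (Qe.symm.toLinearMap.comp A))
  have hT : ∀ c j m (d' : SI), (∀ x, d'.1 c0 j0 x = m x - m (inv c0 x)) →
      T c j m = d'.1 c j := by
    intro c j m d' h
    have h1 : A m = Qe d' := Subtype.ext (funext fun x => (h x).symm)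
    change (Qe.symm (A m)).1 c j = _
    rw [h1, LinearEquiv.symm_apply_apply]
  have hex : ∀ m : E c0 → ℚ, ∃ d' : SI, ∀ x, d'.1 c0 j0 x = m x - m (inv c0 x) := by
    intro m
    refine ⟨Qe.symm (A m), fun x => ?_⟩
    exact congrFun (congrArg Subtype.val (Qe.apply_symm_apply (A m))) x
  have hT1 : ∀ c j (g : G) m x, T c j (fun y => m (g • y)) x = T c j m (g • x) := by
    intro c j g m x
    obtain ⟨d', h1⟩ := hex m
    rw [hT c j m d' h1, hT c j (fun y => m (g • y)) ⟨_, hSIst g d'.1 d'.2⟩]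
    intro x
    change d'.1 c0 j0 (g • x) = m (g • x) - m (g • inv c0 x)
    rw [h1, hG]
  have hT2 : ∀ c j m, OddFun (inv c) (T c j m) := by
    intro c j m
    obtain ⟨d', h1⟩ := hex m
    rw [hT c j m d' h1]
    exact hodd _ d'.2.1 c j
  -- the components for odd functions
  have hcomp : ∀ n, OddFun (inv c0) n → ∀ d ∈ SI, d c0 j0 = n → ∀ c j, T c j n = (2 : ℚ) • d c j := by
    intro n hn d hd hdn c j
    rw [hT c j n ((2 : ℚ) • ⟨d, hd⟩)]
    · rfl
    · intro x
      change (2 : ℚ) • d c0 j0 x = n x - n (inv c0 x)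
      rw [hdn, hn x, smul_eq_mul]
      ring
  choose sc hsc' using fun j : J c0 => hsc c0 (T c0 j) (hT1 c0 j) (hT2 c0 j)
  refine ⟨c0, fun j => sc j / 2, ?_, fun n hn => ?_⟩
  · intro h0
    -- the scalar for `j0` is not zero
    obtain ⟨d, hd, hdn⟩ := hWall (e c0 j0) (hodd e heS c0 j0)
    have hdn' : d c0 j0 = e c0 j0 := hdn
    have h1 := hcomp (e c0 j0) (hodd e heS c0 j0) d hd hdn' c0 j0
    rw [hsc' j0 (e c0 j0) (hodd e heS c0 j0), hdn'] at h1
    have h2 : sc j0 = 0 := by
      have h3 := congrFun h0 j0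
      change sc j0 / 2 = 0 at h3
      linarith
    rw [h2, zero_smul] at h1
    exact (hmem e ⟨c0, j0⟩).1 hi0 ((smul_eq_zero.1 h1.symm).resolve_left two_ne_zero)
  · obtain ⟨d, hd, hdn⟩ := hWall n hn
    have hdn' : d c0 j0 = n := hdn
    have h1 : Pi.single c0 (fun j x => sc j / 2 * n x) = d := by
      funext c
      by_cases hc : c = c0
      · subst hc
        rw [Pi.single_eq_same]
        funext j x
        have h2 := hcomp n hn d hd hdn' c j
        rw [hsc' j n hn] at h2
        have h3 := congrFun h2 x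
        rw [Pi.smul_apply, Pi.smul_apply, smul_eq_mul, smul_eq_mul] at h3
        linarith
      · rw [Pi.single_eq_of_ne hc]
        funext j
        have h2 := hcomp n hn d hd hdn' c j
        rw [hun c0 c (Ne.symm hc) (T c j) (hT1 c j) (hT2 c j) n hn] at h2
        exact ((smul_eq_zero.1 h2.symm).resolve_left two_ne_zero).symm
    rw [h1]
    exact hd.1

end

end Pool.Agent.Y137.SL
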