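import Mathlib

/-!
# Counting linearly dependent tuples of functions with few values
-/

namespace Pool.Agent.Y137.SL

open Module

/-- A space of functions of dimension at most `d` is determined by its values at `d` points. -/
theorem exists_points {E : Type*} [Nonempty E] (d : ℕ) :
    ∀ W : Submodule ℚ (E → ℝ), FiniteDimensional ℚ W → finrank ℚ W ≤ d →
      ∃ P : Fin d → E, ∀ w ∈ W, (∀ i, w (P i) = 0) → w = 0 := by
  induction d with
  | zero =>
    intro W hW hd
    refine ⟨fun i => i.elim0, fun w hw _ => ?_⟩
    have h1 : W = ⊥ := Submodule.finrank_eq_zero.1 (Nat.le_zero.1 hd)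
    rw [h1, Submodule.mem_bot] at hw
    exact hw
  | succ d ih =>
    intro W hW hd
    by_cases h0 : ∃ w ∈ W, w ≠ 0
    · obtain ⟨w, hw, hw0⟩ := h0
      obtain ⟨e, he⟩ := Function.ne_iff.1 hw0
      let W' : Submodule ℚ (E → ℝ) := W ⊓ LinearMap.ker (LinearMap.proj e)
      have hlt : W' < W := by
        refine lt_of_le_of_ne inf_le_left fun h => he ?_
        have h1 : w ∈ W' := by
          rw [h]
          exact hw
        exact LinearMap.mem_ker.1 h1.2
      have hfd : FiniteDimensional ℚ W' := Submodule.finiteDimensional_of_le hlt.le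
      have hr : finrank ℚ W' ≤ d := by
        have := Submodule.finrank_lt_finrank_of_lt hlt
        omega
      obtain ⟨P, hP⟩ := ih W' hfd hr
      refine ⟨Fin.cons e P, fun v hv h => ?_⟩
      have h1 : v e = 0 := h 0
      exact hP v ⟨hv, LinearMap.mem_ker.2 h1⟩ fun i => h i.succ
    · push Not at h0
      exact ⟨fun _ => Classical.arbitrary E, fun w hw _ => h0 w hw⟩

/-- A space of dimension at most `d` contains at most `b ^ d` functions with values in a set of `b`
elements. -/
theorem card_le_of_dim {E S : Type*} [Nonempty E] [Finite S] (u : S → E → ℝ)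
    (hu : Function.Injective u) (T : Finset ℝ) (hT : ∀ x e, u x e ∈ T) (d : ℕ)
    (W : Submodule ℚ (E → ℝ)) (hW : FiniteDimensional ℚ W) (hd : finrank ℚ W ≤ d) :
    Nat.card {x : S // u x ∈ W} ≤ T.card ^ d := by
  obtain ⟨P, hP⟩ := exists_points d W hW hd
  let g : {x : S // u x ∈ W} → (Fin d → T) := fun x i => ⟨u x.1 (P i), hT _ _⟩
  have hg : Function.Injective g := by
    intro x y hxy
    have h1 : u x.1 - u y.1 = 0 := by
      refine hP _ (W.sub_mem x.2 y.2) fun i => ?_
      have h2 := congrArg Subtype.val (congrFun hxy i)
      change u x.1 (P i) = u y.1 (P i) at h2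
      rw [Pi.sub_apply, h2, sub_self]
    exact Subtype.ext (hu (sub_eq_zero.1 h1))
  refine (Nat.card_le_card_of_injective g hg).trans ?_
  rw [Nat.card_eq_fintype_card, Fintype.card_fun, Fintype.card_fin, Fintype.card_coe]

/-- The number of linearly dependent `r`-tuples. -/
theorem count_dependent {E S : Type*} [Nonempty E] [Finite S] (u : S → E → ℝ)
    (hu : Function.Injective u) (T : Finset ℝ) (hT : ∀ x e, u x e ∈ T) (r : ℕ) :
    Nat.card S * Nat.card {x : Fin r → S // ¬ LinearIndependent ℚ (fun i => u (x i))} ≤
      (∑ i ∈ Finset.range r, T.card ^ i) * Nat.card S ^ r := by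
  classical
  have : Fintype S := Fintype.ofFinite S
  induction r with
  | zero =>
    have h1 : IsEmpty {x : Fin 0 → S // ¬ LinearIndependent ℚ (fun i => u (x i))} :=
      ⟨fun x => x.2 linearIndependent_empty_type⟩
    rw [Nat.card_eq_zero.2 (Or.inl h1), mul_zero]
    exact Nat.zero_le _
  | succ r ih =>
    -- split off the last entry
    let A := {x : Fin r → S // ¬ LinearIndependent ℚ (fun i => u (x i))}
    let g : {x : Fin (r + 1) → S // ¬ LinearIndependent ℚ (fun i => u (x i))} →
        (A × S) ⊕ (Σ y : Fin r → S, {z : S // u z ∈ Submodule.span ℚ (Set.range fun i => u (y i))}) :=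
      fun x => if h : LinearIndependent ℚ (fun i => u (Fin.init x.1 i)) then
        Sum.inr ⟨Fin.init x.1, ⟨x.1 (Fin.last r), by
          by_contra h1
          apply x.2
          have h2 : (fun i => u (x.1 i)) =
              Fin.snoc (fun i => u (Fin.init x.1 i)) (u (x.1 (Fin.last r))) := by
            funext i
            refine Fin.lastCases ?_ (fun i => ?_) i
            · rw [Fin.snoc_last]
            · rw [Fin.snoc_castSucc]
              rfl
          rw [h2]
          exact linearIndependent_finSnoc.2 ⟨h, h1⟩⟩⟩
      else Sum.inl (⟨Fin.init x.1, h⟩, x.1 (Fin.last r))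
    have hg : Function.Injective g := by
      intro x y hxy
      have key : Fin.init x.1 = Fin.init y.1 ∧ x.1 (Fin.last r) = y.1 (Fin.last r) := by
        by_cases hx : LinearIndependent ℚ (fun i => u (Fin.init x.1 i)) <;>
        by_cases hy : LinearIndependent ℚ (fun i => u (Fin.init y.1 i))
        · simp only [g, dif_pos hx, dif_pos hy] at hxy
          have h1 := Sum.inr_injective hxy
          rw [Sigma.mk.injEq] at h1
          refine ⟨h1.1, ?_⟩
          have h2 : ∀ (y1 y2 : Fin r → S) (h : y1 = y2)
              (z1 : {z : S // u z ∈ Submodule.span ℚ (Set.range fun i => u (y1 i))})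
              (z2 : {z : S // u z ∈ Submodule.span ℚ (Set.range fun i => u (y2 i))}),
              HEq z1 z2 → z1.1 = z2.1 := by
            intro y1 y2 h z1 z2 h3
            subst h
            rw [eq_of_heq h3]
          exact h2 _ _ h1.1 _ _ h1.2
        · simp only [g, dif_pos hx, dif_neg hy] at hxy
          exact absurd hxy (by simp)
        · simp only [g, dif_neg hx, dif_pos hy] at hxy
          exact absurd hxy (by simp)
        · simp only [g, dif_neg hx, dif_neg hy] at hxy
          have h1 := Sum.inl_injective hxy
          rw [Prod.mk.injEq] at h1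
          exact ⟨congrArg Subtype.val h1.1, h1.2⟩
      apply Subtype.ext
      rw [← Fin.snoc_init_self x.1, ← Fin.snoc_init_self y.1, key.1, key.2]
    have h1 := Nat.card_le_card_of_injective g hg
    rw [Nat.card_sum, Nat.card_prod, Nat.card_sigma] at h1
    have h2 : ∀ y : Fin r → S,
        Nat.card {z : S // u z ∈ Submodule.span ℚ (Set.range fun i => u (y i))} ≤ T.card ^ r := by
      intro y
      have hfd : FiniteDimensional ℚ (Submodule.span ℚ (Set.range fun i => u (y i))) :=
        FiniteDimensional.span_of_finite ℚ (Set.finite_range _)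
      refine card_le_of_dim u hu T hT r _ hfd ?_
      have h3 := finrank_range_le_card (R := ℚ) (fun i => u (y i))
      rw [Fintype.card_fin] at h3
      exact h3
    have h3 : ∑ y : Fin r → S,
        Nat.card {z : S // u z ∈ Submodule.span ℚ (Set.range fun i => u (y i))} ≤
        Nat.card S ^ r * T.card ^ r := by
      refine (Finset.sum_le_card_nsmul _ _ _ fun y _ => h2 y).trans ?_
      rw [Finset.card_univ, Fintype.card_fun, Fintype.card_fin, smul_eq_mul,
        Nat.card_eq_fintype_card]
    have h4 : Nat.card {x : Fin (r + 1) → S // ¬ LinearIndependent ℚ (fun i => u (x i))} ≤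
        Nat.card A * Nat.card S + Nat.card S ^ r * T.card ^ r :=
      h1.trans (Nat.add_le_add_left h3 _)
    calc Nat.card S * Nat.card {x : Fin (r + 1) → S // ¬ LinearIndependent ℚ (fun i => u (x i))}
        ≤ Nat.card S * (Nat.card A * Nat.card S + Nat.card S ^ r * T.card ^ r) :=
          Nat.mul_le_mul_left _ h4
      _ = (Nat.card S * Nat.card A) * Nat.card S + T.card ^ r * Nat.card S ^ (r + 1) := by ring
      _ ≤ ((∑ i ∈ Finset.range r, T.card ^ i) * Nat.card S ^ r) * Nat.card S +
          T.card ^ r * Nat.card S ^ (r + 1) := by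
          gcongr
      _ = _ := by
          rw [Finset.sum_range_succ]
          ring

end Pool.Agent.Y137.SL
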