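import Mathlib
import Pool.Agent.Y137.MV.Criteria
import Pool.Agent.Y137.SL.Defs
import Pool.Agent.Y137.SL.Core

/-!
# Linearly independent slope functions imply maximal angle rank
-/

set_option linter.unusedSectionVars false

namespace Pool.Agent.Y137.SL

open NumberField Module TensorProduct IntermediateField
open Pool.Agent.H204R3.CM Pool.Agent.H204R3.SP Pool.Agent.H204R3.GP Pool.Agent.Y137.MV

noncomputable section

theorem scalar_transfer {L : Type*} [Field L] [NumberField L] [IsGalois ℚ L] (j : L →+* ℂ)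
    {F : Type*} [Field F] [NumberField F] [IsCMField F]
    (h : ∀ ψ : F →+* ℂ, ∃ φ : F →+* L, j.comp φ = ψ) (hsc : OddAbsolutelyIrreducible F) :
    ScalarOdd (E := F →+* L) (L ≃ₐ[ℚ] L) cbar := by
  intro T hT1 hT2
  let J : (F →+* L) ≃ (F →+* ℂ) := embEquiv j h
  let A : ((F →+* ℂ) → ℚ) →ₗ[ℚ] ((F →+* L) → ℚ) :=
    { toFun := fun n φ => n (J φ)
      map_add' := fun _ _ => rfl
      map_smul' := fun _ _ => rfl }
  let B : ((F →+* L) → ℚ) →ₗ[ℚ] ((F →+* ℂ) → ℚ) :=
    { toFun := fun n φ => n (J.symm φ)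
      map_add' := fun _ _ => rfl
      map_smul' := fun _ _ => rfl }
  have hJs : ∀ φ : F →+* L, J.symm (j.comp φ) = φ := fun φ => J.symm_apply_apply φ
  obtain ⟨c, hc⟩ := hsc.2 (B.comp (T.comp A)) (by
    intro τ m ψ
    obtain ⟨φ, rfl⟩ := h ψ
    obtain ⟨σ, hσ⟩ := H194R3.CM.exists_restrict j (τ : ℂ →+* ℂ)
    change T (A (fun φ => m ((τ : ℂ →+* ℂ).comp φ))) (J.symm (j.comp φ)) =
      T (A m) (J.symm ((τ : ℂ →+* ℂ).comp (j.comp φ)))
    rw [hJs, ← H194R3.CM.comp_smul_of_restrict j _ σ hσ, hJs, ← hT1]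
    have e2 : (A (fun φ => m ((τ : ℂ →+* ℂ).comp φ))) = fun y => A m (σ • y) := by
      funext ψ
      change m ((τ : ℂ →+* ℂ).comp (j.comp ψ)) = m (j.comp (σ • ψ))
      rw [H194R3.CM.comp_smul_of_restrict j _ σ hσ]
    rw [e2]) (by
    intro m ψ
    obtain ⟨φ, rfl⟩ := h ψ
    change T (A m) (J.symm (ComplexEmbedding.conjugate (j.comp φ))) =
      -T (A m) (J.symm (j.comp φ))
    rw [← comp_cbar, hJs, hJs]
    exact hT2 _ φ)
  refine ⟨c, fun n hn => ?_⟩
  have h1 := hc (fun ψ => n (J.symm ψ)) (by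
    intro ψ
    obtain ⟨φ, rfl⟩ := h ψ
    change n (J.symm (ComplexEmbedding.conjugate (j.comp φ))) = -n (J.symm (j.comp φ))
    rw [← comp_cbar, hJs, hJs]
    exact hn φ)
  funext φ
  have h2 := congrFun h1 (j.comp φ)
  change T (A (fun ψ => n (J.symm ψ))) (J.symm (j.comp φ)) = c * n (J.symm (j.comp φ)) at h2
  rw [hJs] at h2
  have h3 : A (fun ψ => n (J.symm ψ)) = n := by
    funext φ
    change n (J.symm (J φ)) = n φ
    rw [Equiv.symm_apply_apply]
  rw [h3] at h2
  exact h2

/-- The normalised slope of an embedding into `L`. -/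
def uu {C : Type*} {J : C → Type*} {K : C → Type*} [∀ c, Field (K c)] (ϖ : ∀ c, J c → K c)
    (p a : ℕ) [Fact p.Prime] {L : Type*} [Field L] (jp : L →+* PadicAlgCl p)
    (x : Σ x : (Σ c, J c), (K x.1 →+* L)) : ℝ :=
  2 * Real.log ‖jp (x.2 (ϖ x.1.1 x.1.2))‖ - Real.log ‖(p : PadicAlgCl p) ^ a‖

theorem log_Q (p a : ℕ) [Fact p.Prime] :
    Real.log ‖(p : PadicAlgCl p) ^ a‖ = -((a : ℝ) * Real.log p) := by
  rw [norm_pow, Real.log_pow]
  have h1 : ‖(p : PadicAlgCl p)‖ = (p : ℝ)⁻¹ := by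
    have h2 := PadicAlgCl.norm_extends p (p : ℚ_[p])
    rw [Padic.norm_p] at h2
    rw [← h2]
    congr 1
  rw [h1, Real.log_inv]
  ring

theorem val_ne {p : ℕ} [Fact p.Prime] {a : ℕ} {C : Type*} [Fintype C] {J : C → Type*}
    [∀ c, Fintype (J c)] {K : C → Type*}
    [∀ c, Field (K c)] [∀ c, NumberField (K c)] [∀ c, IsCMField (K c)] {ϖ : ∀ c, J c → K c}
    {L : Type*} [Field L] [NumberField L] [IsGalois ℚ L]
    (hw : ∀ c i, ϖ c i * IsCMField.complexConj (K c) (ϖ c i) = (p : K c) ^ a)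
    (x : Σ x : (Σ c, J c), (K x.1 →+* L)) : x.2 (ϖ x.1.1 x.1.2) ≠ 0 := by
  intro h3
  have h4 : ϖ x.1.1 x.1.2 = 0 := x.2.injective (by rw [h3, map_zero])
  have h5 := hw x.1.1 x.1.2
  rw [h4, zero_mul] at h5
  exact pow_ne_zero a (Nat.cast_ne_zero.2 (Fact.out : p.Prime).ne_zero) h5.symm

theorem uu_bar {p : ℕ} [Fact p.Prime] {a : ℕ} {C : Type*} [Fintype C] {J : C → Type*}
    [∀ c, Fintype (J c)] {K : C → Type*}
    [∀ c, Field (K c)] [∀ c, NumberField (K c)] [∀ c, IsCMField (K c)] {ϖ : ∀ c, J c → K c}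
    {L : Type*} [Field L] [NumberField L] [IsGalois ℚ L] (jp : L →+* PadicAlgCl p)
    (hw : ∀ c i, ϖ c i * IsCMField.complexConj (K c) (ϖ c i) = (p : K c) ^ a)
    (x : Σ x : (Σ c, J c), (K x.1 →+* L)) :
    uu ϖ p a jp (bar (F := fun x : Σ c, J c => K x.1) x) = -uu ϖ p a jp x := by
  have h1 := val_bar (F := fun x : Σ c, J c => K x.1) (π := fun x => ϖ x.1 x.2) (L := L)
    (fun x => hw x.1 x.2) x
  have h2 := congrArg (fun z => Real.log ‖jp z‖) h1
  simp only [map_mul, norm_mul, map_pow, map_natCast] at h2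
  rw [Real.log_mul] at h2
  · change 2 * Real.log ‖jp (val (fun x : Σ c, J c => ϖ x.1 x.2)
      (bar (F := fun x : Σ c, J c => K x.1) x))‖ - _ = -(2 * Real.log ‖jp (val (F := fun x : Σ c, J c => K x.1)
        (fun x : Σ c, J c => ϖ x.1 x.2) x)‖ - _)
    linarith
  · exact norm_ne_zero_iff.2 ((map_ne_zero jp).2 (val_ne hw x))
  · exact norm_ne_zero_iff.2 ((map_ne_zero jp).2 (val_ne hw (bar (F := fun x : Σ c, J c => K x.1) x)))

/-- Linearly independent slope functions imply that all relations are balanced. -/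
theorem core_relation {p : ℕ} [Fact p.Prime] {a : ℕ} {C : Type*} [Fintype C] {J : C → Type*}
    [∀ c, Fintype (J c)] {K : C → Type*}
    [∀ c, Field (K c)] [∀ c, NumberField (K c)] [∀ c, IsCMField (K c)] {ϖ : ∀ c, J c → K c}
    {L : Type*} [Field L] [NumberField L] [IsGalois ℚ L] (j : L →+* ℂ)
    (h : ∀ c, ∀ ψ : K c →+* ℂ, ∃ φ : K c →+* L, j.comp φ = ψ) (jp : L →+* PadicAlgCl p)
    (hw : ∀ c i, ϖ c i * IsCMField.complexConj (K c) (ϖ c i) = (p : K c) ^ a)
    (hirr : ∀ c, OddAbsolutelyIrreducible (K c))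
    (hun : ∀ c c', c ≠ c' → Unrelated (K c) (K c'))
    (hind : ∀ c, LinearIndependent ℚ (fun i => slope p a (ϖ c i)))
    (m : (Σ x : (Σ c, J c), (K x.1 →+* L)) → ℤ)
    (hm : ∀ σ : L ≃ₐ[ℚ] L, ∑ y, (m y : ℝ) * uu ϖ p a jp (σ • y) = 0)
    (y : Σ x : (Σ c, J c), (K x.1 →+* L)) : m y = m (bar (F := fun x : Σ c, J c => K x.1) y) := by
  classical
  let X := Σ x : (Σ c, J c), (K x.1 →+* L)
  let br : X → X := fun x => bar (F := fun x : Σ c, J c => K x.1) x
  have hbr : ∀ x, br (br x) = x := fun x => bar_bar (F := fun x : Σ c, J c => K x.1) x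
  let u : X → ℝ := fun x => uu ϖ p a jp x
  have hua : ∀ x, u (br x) = -u x := fun x => uu_bar jp hw x
  let c : X → ℝ := fun y => (m y : ℝ) - (m (br y) : ℝ)
  have hrel : ∀ σ : L ≃ₐ[ℚ] L, ∑ y, c y * u (σ • y) = 0 := by
    intro σ
    have h2 : ∀ y : X, c y * u (σ • y) = (m y : ℝ) * u (σ • y) - (m (br y) : ℝ) * u (σ • y) := by
      intro y
      simp only [c]
      ring
    rw [Finset.sum_congr rfl (fun y _ => h2 y), Finset.sum_sub_distrib]
    have h3 : ∑ y : X, (m (br y) : ℝ) * u (σ • y) = ∑ y : X, (m y : ℝ) * u (σ • br y) := by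
      let B : X ≃ X := ⟨br, br, hbr, hbr⟩
      rw [← Equiv.sum_comp B]
      refine Finset.sum_congr rfl fun y _ => ?_
      change (m (br (br y)) : ℝ) * u (σ • br y) = _
      rw [hbr]
    have h4 : ∀ y : X, (m y : ℝ) * u (σ • br y) = -((m y : ℝ) * u (σ • y)) := by
      intro y
      have h5 : u (σ • br y) = -u (σ • y) := hua (σ • y)
      rw [h5]
      ring
    have h6 : ∑ y : X, (m y : ℝ) * u (σ • y) = 0 := hm σ
    rw [h3, Finset.sum_congr rfl (fun y _ => h4 y), Finset.sum_neg_distrib, h6]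
    norm_num
  -- the space of relations
  let S : Submodule ℚ (∀ c, J c → (K c →+* L) → ℚ) :=
    { carrier := {d | (∀ c i, OddFun cbar (d c i)) ∧
        ∀ σ : L ≃ₐ[ℚ] L, ∑ y : X, (d y.1.1 y.1.2 y.2 : ℝ) * u (σ • y) = 0}
      zero_mem' := ⟨fun c i x => by simp, fun σ => by simp⟩
      add_mem' := fun {a b} ha hb => ⟨fun c i x => by
          change a c i (cbar x) + b c i (cbar x) = -(a c i x + b c i x)
          rw [ha.1 c i x, hb.1 c i x]
          ring, fun σ => by
          have h1 := congrArg₂ (fun x y : ℝ => x + y) (ha.2 σ) (hb.2 σ)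
          simp only [add_zero] at h1
          rw [← h1, ← Finset.sum_add_distrib]
          refine Finset.sum_congr rfl fun y _ => ?_
          change (((a y.1.1 y.1.2 y.2 + b y.1.1 y.1.2 y.2 : ℚ)) : ℝ) * _ = _
          rw [Rat.cast_add]
          ring⟩
      smul_mem' := fun r {a} ha => ⟨fun c i x => by
          change r • a c i (cbar x) = -(r • a c i x)
          rw [ha.1 c i x, smul_neg], fun σ => by
          rw [← mul_zero (r : ℝ), ← ha.2 σ, Finset.mul_sum]
          refine Finset.sum_congr rfl fun y _ => ?_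
          change ((r * a y.1.1 y.1.2 y.2 : ℚ) : ℝ) * _ = _
          rw [Rat.cast_mul]
          ring⟩ }
  have hSbot : S = ⊥ := by
    by_contra hS
    obtain ⟨c, l, hl, hi⟩ := core_slopes (C := C) (J := J) (E := fun c => (K c →+* L))
      (G := L ≃ₐ[ℚ] L) (fun c => cbar)
      (fun c x => cbar_cbar x) (fun g c x => rfl)
      (fun c => irr_transfer j (h c) (hirr c).1) (fun c => scalar_transfer j (h c) (hirr c))
      (fun c c' hcc => unrel_transfer j (h c) (h c') (hun c c' hcc)) S (fun d hd => hd.1)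
      (fun g d hd => ⟨fun c i x => hd.1 c i (g • x), fun σ => by
        have h1 := hd.2 (σ * g⁻¹)
        rw [← h1]
        refine Fintype.sum_equiv (MulAction.toPerm g) _ _ fun y => ?_
        change _ = (d y.1.1 y.1.2 (g • y.2) : ℝ) * u ((σ * g⁻¹) • (g • y))
        rw [← mul_smul, mul_assoc, inv_mul_cancel, mul_one]⟩) hS
    -- the linear relation between the slope functions
    have hrelL : ∀ φ : K c →+* L, ∑ i, (l i : ℝ) * u ⟨⟨c, i⟩, φ⟩ = 0 := by
      intro φ
      let n : (K c →+* L) → ℚ := fun ψ => (if ψ = φ then 1 else 0) - (if ψ = cbar φ then 1 else 0)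
      have hn : OddFun cbar n := by
        intro ψ
        have e1 : (cbar ψ = φ) ↔ (ψ = cbar φ) := by
          constructor
          · intro h
            rw [← h, cbar_cbar]
          · intro h
            rw [h, cbar_cbar]
        have e2 : (cbar ψ = cbar φ) ↔ (ψ = φ) := by
          constructor
          · intro h
            rw [← cbar_cbar ψ, h, cbar_cbar]
          · intro h
            rw [h]
        simp only [n, e1, e2]
        ring
      have h1 := (hi n hn).2 1
      rw [Fintype.sum_sigma, Fintype.sum_sigma, Finset.sum_eq_single c] at h1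
      · simp only [Pi.single_eq_same, one_smul] at h1
        have h2 : ∀ i, ∑ ψ : K c →+* L, (((l i * n ψ : ℚ)) : ℝ) * u ⟨⟨c, i⟩, ψ⟩ =
            2 * ((l i : ℝ) * u ⟨⟨c, i⟩, φ⟩) := by
          intro i
          have h3 : ∀ ψ : K c →+* L, ((l i * n ψ : ℚ) : ℝ) * u ⟨⟨c, i⟩, ψ⟩ =
              (if ψ = φ then (l i : ℝ) * u ⟨⟨c, i⟩, φ⟩ else 0) -
              (if ψ = cbar φ then (l i : ℝ) * u ⟨⟨c, i⟩, cbar φ⟩ else 0) := by
            intro ψ
            simp only [n]
            by_cases h3 : ψ = φ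
            · subst h3
              rw [if_pos rfl, if_neg (fun h4 => cbar_ne ψ h4.symm), if_pos rfl,
                if_neg (fun h4 => cbar_ne ψ h4.symm)]
              push_cast
              ring
            · by_cases h4 : ψ = cbar φ
              · subst h4
                rw [if_neg h3, if_pos rfl, if_neg h3, if_pos rfl]
                push_cast
                ring
              · rw [if_neg h3, if_neg h4, if_neg h3, if_neg h4]
                norm_num
          rw [Finset.sum_congr rfl (fun ψ _ => h3 ψ), Finset.sum_sub_distrib,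
            Finset.sum_ite_eq', Finset.sum_ite_eq', if_pos (Finset.mem_univ _),
            if_pos (Finset.mem_univ _)]
          have h4 : u ⟨⟨c, i⟩, cbar φ⟩ = -u ⟨⟨c, i⟩, φ⟩ := hua ⟨⟨c, i⟩, φ⟩
          rw [h4]
          ring
        rw [Finset.sum_congr rfl (fun i _ => h2 i), ← Finset.mul_sum] at h1
        linarith
      · intro c' _ hc'
        refine Finset.sum_eq_zero fun i _ => Finset.sum_eq_zero fun ψ _ => ?_
        rw [Pi.single_eq_of_ne hc']
        simp
      · intro h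
        exact absurd (Finset.mem_univ _) h
    apply hl
    have h1 := Fintype.linearIndependent_iff.1 (hind c) l (by
      funext τ
      rw [Finset.sum_apply]
      obtain ⟨φ, hφ⟩ := exists_factor j (h c) jp τ
      have h2 := hrelL φ
      have h3 : ∀ i, (l i • slope p a (ϖ c i)) τ = (l i : ℝ) * u ⟨⟨c, i⟩, φ⟩ / 2 := by
        intro i
        rw [Pi.smul_apply, Rat.smul_def]
        unfold slope
        simp only [u]
        unfold uu
        have h4 : ‖τ (ϖ c i)‖ = ‖jp (φ (ϖ c i))‖ := by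
          rw [← hφ]
          rfl
        rw [h4, log_Q]
        ring
      rw [Finset.sum_congr rfl (fun i _ => h3 i), ← Finset.sum_div, h2, zero_div]
      rfl)
    funext i
    exact h1 i
  -- the discrepancy function
  let d : ∀ c, J c → (K c →+* L) → ℚ := fun c i φ =>
    (m ⟨⟨c, i⟩, φ⟩ : ℚ) - (m (br ⟨⟨c, i⟩, φ⟩) : ℚ)
  have hdc : ∀ y : X, ((d y.1.1 y.1.2 y.2 : ℚ) : ℝ) = c y := by
    intro y
    simp only [d, c]
    push_cast
    rfl
  have hdS : d ∈ S := by
    refine ⟨fun c i φ => ?_, fun σ => ?_⟩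
    · simp only [d]
      change (m (br ⟨⟨c, i⟩, φ⟩) : ℚ) - (m (br (br ⟨⟨c, i⟩, φ⟩)) : ℚ) = _
      rw [hbr]
      ring
    · rw [← hrel σ]
      exact Finset.sum_congr rfl fun y _ => by rw [hdc]
  rw [hSbot, Submodule.mem_bot] at hdS
  have h9 : d y.1.1 y.1.2 y.2 = 0 := by rw [hdS]; rfl
  simp only [d] at h9
  have h10 : (m y : ℚ) = (m (br y) : ℚ) := sub_eq_zero.1 h9
  exact_mod_cast h10

/-- Linearly independent slope functions imply that there are no multiplicative relations. -/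
theorem neat_of_slopes {p : ℕ} [Fact p.Prime] {a : ℕ} {C : Type*} [Fintype C] {J : C → Type*}
    [∀ c, Fintype (J c)] {K : C → Type*}
    [∀ c, Field (K c)] [∀ c, NumberField (K c)] [∀ c, IsCMField (K c)] (ϖ : ∀ c, J c → K c)
    {L : Type*} [Field L] [NumberField L] [IsGalois ℚ L] (j : L →+* ℂ)
    (h : ∀ c, ∀ ψ : K c →+* ℂ, ∃ φ : K c →+* L, j.comp φ = ψ) (jp : L →+* PadicAlgCl p)
    (hw : ∀ c i, ϖ c i * IsCMField.complexConj (K c) (ϖ c i) = (p : K c) ^ a)
    (hirr : ∀ c, OddAbsolutelyIrreducible (K c))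
    (hun : ∀ c c', c ≠ c' → Unrelated (K c) (K c'))
    (hind : ∀ c, LinearIndependent ℚ (fun i => slope p a (ϖ c i))) :
    Neat p a (F := fun x : Σ c, J c => K x.1) (fun x => ϖ x.1 x.2) L := by
  classical
  intro m M hM I hprod y
  have h1 := core_relation j h jp hw hirr hun hind
    (fun y => ((Finset.univ.filter (fun l => I l = y)).card : ℤ)) (fun σ => by
    have h1 := log_relation (F := fun x : Σ c, J c => K x.1) (π := fun x => ϖ x.1 x.2) jp
      (fun x => hw x.1 x.2) hM I hprod σ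
    have h2 : ∀ y : (Σ x : (Σ c, J c), (K x.1 →+* L)),
        (((Finset.univ.filter (fun l => I l = y)).card : ℤ) : ℝ) * uu ϖ p a jp (σ • y) =
        ∑ l, if I l = y then uu ϖ p a jp (σ • y) else 0 := by
      intro y
      rw [← Finset.sum_filter, Finset.sum_const, nsmul_eq_mul, Int.cast_natCast]
    rw [Finset.sum_congr rfl (fun y _ => h2 y), Finset.sum_comm]
    refine Eq.trans ?_ h1
    refine Finset.sum_congr rfl fun l _ => ?_
    rw [Finset.sum_ite_eq, if_pos (Finset.mem_univ _)]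
    rfl) y
  have h2 : (Finset.univ.filter (fun l => I l = y)).card = (Finset.univ.filter
      (fun l => I l = bar (F := fun x : Σ c, J c => K x.1) y)).card := by
    exact_mod_cast h1
  convert! h2

end

end Pool.Agent.Y137.SL
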