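import Mathlib
import Pool.Agent.H485R3.Exact.ExoticMain
import Pool.Agent.Y137.MV.Width
import Pool.Agent.Y137.SL.Neat

/-!
# The exact criterion: maximal angle rank and linear independence of the slope functions
-/

set_option linter.unusedSectionVars false

namespace Pool.Agent.Y137.SL

open NumberField Module TensorProduct IntermediateField
open Pool.Agent.H204R3.CM Pool.Agent.H204R3.SP Pool.Agent.H204R3.GP Pool.Agent.Y137.MV

noncomputable section

theorem angle_of_slopes {p : ℕ} [Fact p.Prime] {a : ℕ} {C : Type*} [Fintype C] {J : C → Type*}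
    [∀ c, Fintype (J c)] {K : C → Type*}
    [∀ c, Field (K c)] [∀ c, NumberField (K c)] [∀ c, IsCMField (K c)] (ϖ : ∀ c, J c → K c)
    (hw : ∀ c i, ϖ c i * IsCMField.complexConj (K c) (ϖ c i) = (p : K c) ^ a)
    (hirr : ∀ c, OddAbsolutelyIrreducible (K c))
    (hun : ∀ c c', c ≠ c' → Unrelated (K c) (K c'))
    (hind : ∀ c, LinearIndependent ℚ (fun i => slope p a (ϖ c i))) :
    MaximalAngleRank (F := fun x : Σ c, J c => K x.1) (p ^ a) (fun x => ϖ x.1 x.2) := by
  classical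
  obtain ⟨L, hL1, hL2, j, h⟩ := exists_galois K
  let jp' : L →ₐ[ℚ] PadicAlgCl p := IsAlgClosed.lift
  let jp : L →+* PadicAlgCl p := jp'
  intro r n hn i φ
  let X := Σ x : (Σ c, J c), (K x.1 →+* L)
  let e : X ≃ (Σ x : (Σ c, J c), (K x.1 →+* ℂ)) :=
    Equiv.sigmaCongrRight fun x => embEquiv j (h x.1)
  have he : ∀ y : X, e y = ⟨y.1, j.comp y.2⟩ := fun y => rfl
  let m : X → ℤ := fun y => n (e y)
  have hne := fun x : X => val_ne (L := L) hw x
  have hprodC : ∏ y : X, (j (y.2 (ϖ y.1.1 y.1.2))) ^ m y = ((p ^ a : ℕ) : ℂ) ^ r := by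
    rw [← hn]
    exact Fintype.prod_equiv e _ _ fun y => rfl
  have hprod : ∏ y : X, (y.2 (ϖ y.1.1 y.1.2)) ^ m y = ((p : L) ^ a) ^ r := by
    apply j.injective
    rw [map_prod]
    simp only [map_zpow₀, map_pow, map_natCast]
    rw [hprodC]
    push_cast
    rfl
  -- complex absolute values
  have hcx : ∑ y : X, (m y : ℝ) * ((a : ℝ) * Real.log p / 2) = r * ((a : ℝ) * Real.log p) := by
    have h1 := congrArg (fun z => Real.log ‖z‖) hprodC
    simp only [norm_prod, norm_zpow] at h1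
    rw [Real.log_prod (fun y _ => zpow_ne_zero _ (norm_ne_zero_iff.2
      ((map_ne_zero j).2 (hne y))))] at h1
    simp only [Real.log_zpow] at h1
    have h2 : ∀ y : X, Real.log ‖j (y.2 (ϖ y.1.1 y.1.2))‖ = (a : ℝ) * Real.log p / 2 := by
      intro y
      have h3 := congrArg Real.log (norm_val (F := fun x : Σ c, J c => K x.1)
        (π := fun x => ϖ x.1 x.2) j (fun x => hw x.1 x.2) y)
      rw [Real.log_pow, Real.log_pow] at h3
      push_cast at h3
      change 2 * Real.log ‖j (y.2 (ϖ y.1.1 y.1.2))‖ = _ at h3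
      linarith
    simp only [h2] at h1
    rw [h1, Nat.cast_pow, norm_pow, Complex.norm_natCast, Real.log_pow]
  have hrel : ∀ σ : L ≃ₐ[ℚ] L, ∑ y, (m y : ℝ) * uu ϖ p a jp (σ • y) = 0 := by
    intro σ
    have h1 := congrArg (fun z => Real.log ‖jp (σ z)‖) hprod
    simp only [map_prod, map_zpow₀, norm_prod, norm_zpow] at h1
    rw [Real.log_prod (fun y _ => zpow_ne_zero _ (norm_ne_zero_iff.2
      ((map_ne_zero jp).2 ((map_ne_zero σ).2 (hne y)))))] at h1
    simp only [Real.log_zpow, map_pow, map_natCast] at h1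
    rw [log_Q] at h1
    have h2 : ∀ y : X, (m y : ℝ) * uu ϖ p a jp (σ • y) =
        2 * ((m y : ℝ) * Real.log ‖jp (σ (y.2 (ϖ y.1.1 y.1.2)))‖) +
        2 * ((m y : ℝ) * ((a : ℝ) * Real.log p / 2)) := by
      intro y
      unfold uu
      rw [log_Q]
      change (m y : ℝ) * (2 * Real.log ‖jp (σ (y.2 (ϖ y.1.1 y.1.2)))‖ - _) = _
      ring
    rw [Finset.sum_congr rfl (fun y _ => h2 y), Finset.sum_add_distrib, ← Finset.mul_sum,
      ← Finset.mul_sum, hcx, h1]
    ring
  obtain ⟨φ', hφ'⟩ := h i.1 φ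
  have h1 := core_relation j h jp hw hirr hun hind m hrel ⟨i, φ'⟩
  have h2 : m ⟨i, φ'⟩ = n ⟨i, φ⟩ := by
    change n ⟨i, j.comp φ'⟩ = _
    rw [hφ']
  have h3 : m (bar (F := fun x : Σ c, J c => K x.1) ⟨i, φ'⟩) =
      n ⟨i, ComplexEmbedding.conjugate φ⟩ := by
    change n ⟨i, j.comp (cbar φ')⟩ = _
    rw [comp_cbar, hφ']
  rw [← h2, ← h3]
  exact h1

theorem root_of_slopes {p : ℕ} [Fact p.Prime] {a : ℕ} {K : Type*} [Field K] [NumberField K]
    [IsCMField K] {J : Type*} [Fintype J] (ϖ : J → K) (hint : ∀ i, IsIntegral ℤ (ϖ i))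
    (hw : ∀ i, ϖ i * IsCMField.complexConj K (ϖ i) = (p : K) ^ a)
    (m : J → ℤ) (hm : ∀ τ, ∑ i, (m i : ℝ) * slope p a (ϖ i) τ = 0) :
    ∃ R : ℕ, 0 < R ∧ (∏ i, (ϖ i / IsCMField.complexConj K (ϖ i)) ^ m i) ^ R = 1 := by
  classical
  have hpp : (p : K) ≠ 0 := Nat.cast_ne_zero.2 (Fact.out : p.Prime).ne_zero
  have h0 : ∀ i, ϖ i ≠ 0 := by
    intro i h1
    have h2 := hw i
    rw [h1, zero_mul] at h2
    exact pow_ne_zero a hpp h2.symm
  have h0' : ∀ i, IsCMField.complexConj K (ϖ i) ≠ 0 := fun i => (map_ne_zero _).2 (h0 i)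
  have hcx : ∀ (ψ : K →+* ℂ) i, ‖ψ (IsCMField.complexConj K (ϖ i))‖ = ‖ψ (ϖ i)‖ := by
    intro ψ i
    rw [IsCMField.complexEmbedding_complexConj, RCLike.norm_conj]
  have hsq : ∀ i (ψ : K →+* ℂ), ‖ψ (ϖ i)‖ ^ 2 = (p : ℝ) ^ a := by
    intro i ψ
    have h1 := congrArg (fun z => ‖ψ z‖) (hw i)
    simp only [map_mul, norm_mul, map_pow, map_natCast, norm_pow, Complex.norm_natCast] at h1
    rw [hcx] at h1
    rw [pow_two, h1]
  obtain ⟨L, hL1, hL2, j, h⟩ := exists_galois (fun _ : Unit => K)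
  obtain ⟨φ0, -⟩ : ∃ φ : K →+* L, True := by
    obtain ⟨ψ⟩ : Nonempty (K →+* ℂ) := inferInstance
    obtain ⟨φ, -⟩ := h () ψ
    exact ⟨φ, trivial⟩
  set z : K := ∏ i, (ϖ i / IsCMField.complexConj K (ϖ i)) ^ m i with hz
  obtain ⟨R, hR, hR1⟩ := Pool.Agent.H485R3.Exact.root_of_unity (L := L) (φ0 z) (by
    intro l _ e
    let y : K →+* PadicAlgCl l := (e : L →+* PadicAlgCl l).comp φ0
    have hy : e (φ0 z) = y z := rfl
    rw [hy]
    by_cases hl : l = p
    · subst hl
      have h1 : Real.log ‖y z‖ = 0 := by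
        rw [hz, map_prod]
        simp only [map_zpow₀, map_div₀, norm_prod, norm_zpow, norm_div]
        rw [Real.log_prod (fun i _ => zpow_ne_zero _ (div_ne_zero
          (norm_ne_zero_iff.2 ((map_ne_zero y).2 (h0 i)))
          (norm_ne_zero_iff.2 ((map_ne_zero y).2 (h0' i)))))]
        have h2 : ∀ i, Real.log ((‖y (ϖ i)‖ / ‖y (IsCMField.complexConj K (ϖ i))‖) ^ m i) =
            2 * ((m i : ℝ) * slope l a (ϖ i) y) := by
          intro i
          rw [Real.log_zpow, Real.log_div (norm_ne_zero_iff.2 ((map_ne_zero y).2 (h0 i)))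
            (norm_ne_zero_iff.2 ((map_ne_zero y).2 (h0' i)))]
          have h3 := congrArg (fun z => Real.log ‖y z‖) (hw i)
          simp only [map_mul, norm_mul, map_pow, map_natCast] at h3
          rw [Real.log_mul (norm_ne_zero_iff.2 ((map_ne_zero y).2 (h0 i)))
            (norm_ne_zero_iff.2 ((map_ne_zero y).2 (h0' i))), log_Q] at h3
          unfold slope
          have h4 : Real.log ‖y (IsCMField.complexConj K (ϖ i))‖ =
              -((a : ℝ) * Real.log l) - Real.log ‖y (ϖ i)‖ := by linarith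
          rw [h4]
          ring
        rw [Finset.sum_congr rfl (fun i _ => h2 i), ← Finset.mul_sum, hm y, mul_zero]
      have hz0 : z ≠ 0 := Finset.prod_ne_zero_iff.2 fun i _ =>
        zpow_ne_zero _ (div_ne_zero (h0 i) (h0' i))
      have h2 : 0 < ‖y z‖ := norm_pos_iff.2 ((map_ne_zero y).2 hz0)
      have h3 := Real.exp_log h2
      rw [h1, Real.exp_zero] at h3
      exact h3.ge
    · have h1 : ∀ i, ‖y (ϖ i)‖ = 1 := fun i =>
        Pool.Agent.H485R3.Exact.norm_eq_one_of_ne p a (ϖ i) (hint i) (hsq i) l hl y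
      have h2 : ∀ i, ‖y (IsCMField.complexConj K (ϖ i))‖ = 1 := by
        intro i
        refine Pool.Agent.H485R3.Exact.norm_eq_one_of_ne p a (IsCMField.complexConj K (ϖ i))
          ((hint i).map ((IsCMField.complexConj K : K →+* K).toIntAlgHom)) (fun ψ => ?_) l hl y
        rw [hcx]
        exact hsq i ψ
      rw [hz, map_prod]
      simp only [map_zpow₀, map_div₀, norm_prod, norm_zpow, norm_div, h1, h2, div_one, one_zpow,
        Finset.prod_const_one]
      exact le_refl _) (by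
    intro φ
    let y : K →+* ℂ := (φ : L →+* ℂ).comp φ0
    have hy : φ (φ0 z) = y z := rfl
    rw [hy, hz, map_prod]
    simp only [map_zpow₀, map_div₀, norm_prod, norm_zpow, norm_div, hcx]
    refine Finset.prod_eq_one fun i _ => ?_
    rw [div_self (norm_ne_zero_iff.2 ((map_ne_zero y).2 (h0 i))), one_zpow])
  refine ⟨R, hR, ?_⟩
  apply φ0.injective
  rw [map_pow, hR1, map_one]

theorem slopes_of_angle {p : ℕ} [Fact p.Prime] {a : ℕ} {C : Type*} [Fintype C] {J : C → Type*}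
    [∀ c, Fintype (J c)] {K : C → Type*}
    [∀ c, Field (K c)] [∀ c, NumberField (K c)] [∀ c, IsCMField (K c)] (ϖ : ∀ c, J c → K c)
    (hint : ∀ c i, IsIntegral ℤ (ϖ c i))
    (hw : ∀ c i, ϖ c i * IsCMField.complexConj (K c) (ϖ c i) = (p : K c) ^ a)
    (hang : MaximalAngleRank (F := fun x : Σ c, J c => K x.1) (p ^ a) (fun x => ϖ x.1 x.2))
    (c : C) : LinearIndependent ℚ (fun i => slope p a (ϖ c i)) := by
  classical
  rw [Fintype.linearIndependent_iff]
  intro l hl
  -- clear the denominators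
  let D : ℕ := ∏ i, (l i).den
  have hD : D ≠ 0 := Finset.prod_ne_zero_iff.2 fun i _ => (l i).den_nz
  have hm : ∀ i, ∃ m : ℤ, (m : ℚ) = D * l i := by
    intro i
    obtain ⟨d, hd⟩ : (l i).den ∣ D := Finset.dvd_prod_of_mem _ (Finset.mem_univ i)
    refine ⟨d * (l i).num, ?_⟩
    rw [hd]
    push_cast
    have h1 := Rat.mul_den_eq_num (l i)
    calc (d : ℚ) * (l i).num = d * (l i * (l i).den) := by rw [h1]
      _ = _ := by ring
  choose m hm using hm
  obtain ⟨R, hR, hR1⟩ := root_of_slopes (ϖ c) (hint c) (hw c) m (by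
    intro τ
    have h1 := congrFun hl τ
    rw [Finset.sum_apply] at h1
    have h2 : ∀ i, (m i : ℝ) * slope p a (ϖ c i) τ = D * ((l i • slope p a (ϖ c i)) τ) := by
      intro i
      rw [Pi.smul_apply, Rat.smul_def, ← mul_assoc]
      congr 1
      have h3 := congrArg (fun q : ℚ => (q : ℝ)) (hm i)
      push_cast at h3
      exact h3
    rw [Finset.sum_congr rfl (fun i _ => h2 i), ← Finset.mul_sum, h1]
    exact mul_zero _)
  obtain ⟨φ⟩ : Nonempty (K c →+* ℂ) := inferInstance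
  have hφ : ComplexEmbedding.conjugate φ ≠ φ := by
    have h1 := cbar_ne φ
    intro h2
    apply h1
    have h3 := comp_cbar (RingHom.id ℂ) φ
    rw [RingHom.id_comp, RingHom.id_comp, h2] at h3
    exact h3
  have hcj : ∀ x : K c, φ (IsCMField.complexConj (K c) x) = ComplexEmbedding.conjugate φ x := by
    intro x
    rw [IsCMField.complexEmbedding_complexConj]
    rfl
  let wt : (K c →+* ℂ) → ℤ := fun ψ => (if ψ = φ then 1 else 0) -
    (if ψ = ComplexEmbedding.conjugate φ then 1 else 0)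
  have hwt1 : wt φ = 1 := by
    change (if φ = φ then (1 : ℤ) else 0) - (if φ = ComplexEmbedding.conjugate φ then 1 else 0) = 1
    rw [if_pos rfl, if_neg (fun h => hφ h.symm), sub_zero]
  have hwt2 : wt (ComplexEmbedding.conjugate φ) = -1 := by
    change (if ComplexEmbedding.conjugate φ = φ then (1 : ℤ) else 0) -
      (if ComplexEmbedding.conjugate φ = ComplexEmbedding.conjugate φ then 1 else 0) = -1
    rw [if_neg hφ, if_pos rfl, zero_sub]
  have hwt3 : ∀ ψ, ψ ≠ φ → ψ ≠ ComplexEmbedding.conjugate φ → wt ψ = 0 := by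
    intro ψ h1 h2
    change (if ψ = φ then (1 : ℤ) else 0) -
      (if ψ = ComplexEmbedding.conjugate φ then 1 else 0) = 0
    rw [if_neg h1, if_neg h2, sub_zero]
  let n : (Σ x : (Σ c, J c), (K x.1 →+* ℂ)) → ℤ := fun x =>
    if hx : x.1.1 = c then (m (hx ▸ x.1.2)) * R * wt (hx ▸ x.2) else 0
  have hn1 : ∀ i ψ, n ⟨⟨c, i⟩, ψ⟩ = m i * R * wt ψ := by
    intro i ψ
    simp only [n, dif_pos]
  have hn2 : ∀ x : (Σ x : (Σ c, J c), (K x.1 →+* ℂ)), x.1.1 ≠ c → n x = 0 := by
    intro x hx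
    simp only [n, dif_neg hx]
  have h0 : ∀ i, φ (ϖ c i) ≠ 0 := by
    intro i h1
    have h2 := congrArg φ (hw c i)
    rw [map_mul, h1, zero_mul, map_pow, map_natCast] at h2
    exact pow_ne_zero a (Nat.cast_ne_zero.2 (Fact.out : p.Prime).ne_zero) h2.symm
  have h0' : ∀ i, ComplexEmbedding.conjugate φ (ϖ c i) ≠ 0 := by
    intro i h1
    rw [← hcj] at h1
    have h2 := congrArg φ (hw c i)
    rw [map_mul, h1, mul_zero, map_pow, map_natCast] at h2
    exact pow_ne_zero a (Nat.cast_ne_zero.2 (Fact.out : p.Prime).ne_zero) h2.symm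
  have hrel : ∏ x, (x.2 (ϖ x.1.1 x.1.2)) ^ n x = ((p ^ a : ℕ) : ℂ) ^ (0 : ℤ) := by
    rw [zpow_zero, Fintype.prod_sigma, Fintype.prod_sigma, Finset.prod_eq_single c]
    · have h1 : ∀ i, ∏ ψ : K c →+* ℂ, (ψ (ϖ c i)) ^ n ⟨⟨c, i⟩, ψ⟩ =
          ((φ (ϖ c i) / φ (IsCMField.complexConj (K c) (ϖ c i))) ^ m i) ^ R := by
        intro i
        rw [← Finset.mul_prod_erase _ _ (Finset.mem_univ φ),
          ← Finset.mul_prod_erase _ _ (Finset.mem_erase.2 ⟨hφ, Finset.mem_univ _⟩),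
          Finset.prod_eq_one, mul_one]
        · rw [hn1, hn1, hwt1, hwt2, mul_neg, mul_one, zpow_neg, hcj, ← div_eq_mul_inv,
            ← div_zpow, zpow_mul, zpow_natCast]
        · intro ψ hψ
          rw [Finset.mem_erase, Finset.mem_erase] at hψ
          rw [hn1, hwt3 ψ hψ.2.1 hψ.1, mul_zero, zpow_zero]
      rw [Finset.prod_congr rfl (fun i _ => h1 i), Finset.prod_pow]
      have h2 := congrArg φ hR1
      rw [map_pow, map_prod, map_one] at h2
      simp only [map_zpow₀, map_div₀] at h2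
      exact h2
    · intro c' _ hc'
      refine Finset.prod_eq_one fun i _ => Finset.prod_eq_one fun ψ _ => ?_
      rw [hn2 ⟨⟨c', i⟩, ψ⟩ hc', zpow_zero]
    · intro h
      exact absurd (Finset.mem_univ _) h
  intro i
  have h1 := hang 0 n hrel ⟨c, i⟩ φ
  rw [hn1, hn1, hwt1, hwt2, mul_neg, mul_one] at h1
  have h2 : m i * R = 0 := by omega
  have h3 : m i = 0 := (mul_eq_zero.1 h2).resolve_right (Nat.cast_ne_zero.2 hR.ne')
  have h4 := hm i
  rw [h3, Int.cast_zero] at h4
  exact (mul_eq_zero.1 h4.symm).resolve_left (Nat.cast_ne_zero.2 hD)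

end

end Pool.Agent.Y137.SL
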