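import Mathlib
import Pool.Agent.Y137.MV.Final
import Pool.Agent.Y137.SL.Iff
import Pool.Agent.Y137.SL.Count

/-!
# Products of several abelian varieties with the same endomorphism fields: the slope criterion
-/

set_option linter.unusedSectionVars false

namespace Pool.Agent.Y137.SL

open NumberField Module TensorProduct IntermediateField
open Pool.Agent.Y137.MV

noncomputable section

theorem main {p : ℕ} [Fact p.Prime] {a : ℕ} {C : Type*} [Fintype C] {K : C → Type*}
    [∀ c, Field (K c)] [∀ c, NumberField (K c)] [∀ c, IsCMField (K c)]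
    (hirr : ∀ c, OddAbsolutelyIrreducible (K c))
    (hun : ∀ c c', c ≠ c' → Unrelated (K c) (K c'))
    {S : C → Type*} [∀ c, Finite (S c)] (ϖ : ∀ c, S c → K c)
    (hint : ∀ c s, IsIntegral ℤ (ϖ c s))
    (hw : ∀ c s, ϖ c s * IsCMField.complexConj (K c) (ϖ c s) = (p : K c) ^ a)
    (hinj : ∀ c, Function.Injective fun s => slope p a (ϖ c s))
    (T : C → Finset ℝ) (hT : ∀ c s τ, slope p a (ϖ c s) τ ∈ T c) (r : C → ℕ) :
    ∃ B : ∀ c, Set (Fin (r c) → S c),
      (∀ c, Nat.card (S c) * Nat.card (B c) ≤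
        (∑ i ∈ Finset.range (r c), (T c).card ^ i) * Nat.card (S c) ^ r c) ∧
      ∀ x : ∀ c, Fin (r c) → S c,
        (MaximalAngleRank (F := fun y : Σ c, Fin (r c) => K y.1) (p ^ a)
          (fun y => ϖ y.1 (x y.1 y.2)) ↔ ∀ c, x c ∉ B c) := by
  refine ⟨fun c => {x | ¬ LinearIndependent ℚ (fun i => slope p a (ϖ c (x i)))}, ?_, ?_⟩
  · intro c
    have hne : Nonempty (K c →+* PadicAlgCl p) := by
      let y : K c →ₐ[ℚ] PadicAlgCl p := IsAlgClosed.lift
      exact ⟨(y : K c →+* PadicAlgCl p)⟩
    exact count_dependent (fun s => slope p a (ϖ c s)) (hinj c) (T c) (hT c) (r c)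
  · intro x
    constructor
    · intro h c hc
      exact hc (slopes_of_angle (fun c (i : Fin (r c)) => ϖ c (x c i)) (fun c i => hint c _)
        (fun c i => hw c _) h c)
    · intro h
      refine angle_of_slopes (fun c (i : Fin (r c)) => ϖ c (x c i)) (fun c i => hw c _) hirr hun
        fun c => ?_
      by_contra h1
      exact h c h1

end

end Pool.Agent.Y137.SL
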